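import Pool.Agent.Z700.Defs2
import Pool.Agent.Y687.K2.Main2
import Pool.Agent.Y687.K4.CardT

/-!
Project Z700: the analytic side.  From the explicit formula for the symbol, the diagonal identity and
the parity of the Gross sum to the nonvanishing of the sum of the symbols.
-/

set_option autoImplicit false
set_option linter.style.haveILetI false

open Finset

namespace Pool.Agent.Y687

open Pool.Agent.Z700 (pr Fam Fp S_DIAG S_IND S_RTE NE Yd lres xres xrt X2 pii Hyk)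
open Pool.Agent.W97.MT (ap E14 II)

/-- SYM: the explicit formula for the modular symbol of `X_0(14)` -/
def S_SYM : Prop := ∀ {s : ℚ → ℤ} {a : ℕ → ℤ}, Symb2 s a → a 5 = 0 → ∀ x M : ℤ, 0 < M →
  IsCoprime (14 * x) M → s ((x : ℚ) / M) = s 0 * (1 - 3 * Fp x M)

/-- orthogonality -/
theorem sum_jac_zero {S : Finset ℕ} (hS : ∀ q ∈ S, q.Prime ∧ q ≠ 2) (hne : S.Nonempty) :
    ∑ a ∈ rr (∏ q ∈ S, q), jacobiSym (a : ℤ) (∏ q ∈ S, q) = 0 := by
  classical
  obtain ⟨q0, hq0⟩ := hne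
  haveI : NeZero (∏ q ∈ S, q) := ⟨Finset.prod_ne_zero_iff.2 fun r hr => (hS r hr).1.ne_zero⟩
  obtain ⟨w, hw0, hw⟩ := exists_flip hS hq0
  rw [sum_rr]
  have h1 : chi (∏ q ∈ S, q) w = -1 := by
    unfold chi
    rw [jac_prod _ S fun q hq => (hS q hq).1]
    rw [← Finset.mul_prod_erase S _ hq0]
    have h2 : jacobiSym ((w : ZMod (∏ q ∈ S, q)).val : ℤ) q0 = -1 := hw0
    rw [h2, Finset.prod_eq_one, mul_one]
    intro q hq
    rw [Finset.mem_erase] at hq
    exact hw q hq.2 hq.1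
  have h2 : ∑ u : (ZMod (∏ q ∈ S, q))ˣ, chi (∏ q ∈ S, q) u =
      ∑ u : (ZMod (∏ q ∈ S, q))ˣ, chi (∏ q ∈ S, q) (w * u) :=
    (Fintype.sum_equiv (Equiv.mulLeft w) _ _ fun u => rfl).symm
  have h3 : ∀ u : (ZMod (∏ q ∈ S, q))ˣ, chi (∏ q ∈ S, q) (w * u) = - chi (∏ q ∈ S, q) u := by
    intro u
    rw [chi_mul dvd_rfl, h1]
    ring
  simp_rw [h3] at h2
  rw [Finset.sum_neg_distrib] at h2
  have h4 : ∑ u : (ZMod (∏ q ∈ S, q))ˣ, chi (∏ q ∈ S, q) u = 0 := by linarith
  exact h4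

theorem ap5 : ap E14 5 = 0 := by
  have h1 := cnt_E14 5 (by norm_num) (by norm_num) (by norm_num)
  rw [← h1]
  have h2 : cnt 5805 (-285714) 5 = 5 := by
    unfold cnt
    haveI : Fact (Nat.Prime 5) := ⟨by norm_num⟩
    rw [Nat.card_eq_fintype_card]
    decide
  rw [h2]
  norm_num

theorem Fam.split {p : ℕ} (h : Fam p) : Split p := by
  obtain ⟨h1, h2, h3⟩ := h
  exact ⟨h1, by omega, h3⟩

theorem rr_eq (M : ℕ) : rr M = (range M).filter (fun u => Nat.Coprime u M) := rfl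

/-- the sum of the symbols is `s 0` times the square of the Gross sum -/
theorem SS_eq (hsym : S_SYM) (hdiag : S_DIAG) {s : ℚ → ℤ} (hs : Symb2 s (fun q => ap E14 q))
    {P : Finset ℕ} (hP : ∀ p ∈ P, Fam p) (hne : P.Nonempty) :
    SS s (pr P) (pr P) = s 0 * pii P ^ 2 := by
  have hS : ∀ q ∈ P, q.Prime ∧ q ≠ 2 := fun q hq => ⟨(hP q hq).1, by
    have := (hP q hq).2.1
    omega⟩
  have h0 : ∑ a ∈ rr (pr P), jacobiSym (a : ℤ) (pr P) = 0 := sum_jac_zero hS hne
  have hpos : 0 < pr P := Finset.prod_pos fun q hq => (hS q hq).1.pos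
  have h1 := hdiag P hP hne
  unfold SS
  have h2 : ∀ a ∈ rr (pr P), jacobiSym (a : ℤ) (pr P) * s ((a : ℚ) / (pr P : ℕ)) =
      s 0 * (jacobiSym (a : ℤ) (pr P) + (-3) * (jacobiSym (a : ℤ) (pr P) * Fp a (pr P))) := by
    intro a ha
    have hcop : IsCoprime (14 * (a : ℤ)) (pr P : ℤ) := by
      have h3 : Nat.Coprime (14 * a) (pr P) := by
        refine Nat.Coprime.mul_left ?_ (mem_rr.1 ha).2
        refine Nat.Coprime.prod_right fun q hq => ?_
        rw [Nat.coprime_comm, Nat.Prime.coprime_iff_not_dvd (hS q hq).1]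
        intro h4
        have h5 : q ∣ 2 * 7 := h4
        have h6 := (hP q hq).2
        rcases ((hS q hq).1.dvd_mul).1 h5 with h7 | h7
        · exact (hS q hq).2 ((Nat.prime_dvd_prime_iff_eq (hS q hq).1 Nat.prime_two).1 h7)
        · have := (Nat.prime_dvd_prime_iff_eq (hS q hq).1 (by norm_num)).1 h7
          omega
      have := Nat.isCoprime_iff_coprime.2 h3
      push_cast at this
      exact this
    have h4 := hsym hs ap5 a (pr P) (by exact_mod_cast hpos) hcop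
    have h5 : ((a : ℚ) / (pr P : ℕ)) = (((a : ℤ) : ℚ) / ((pr P : ℤ) : ℚ)) := by push_cast; rfl
    rw [h5, h4]
    ring
  rw [Finset.sum_congr rfl h2, ← Finset.mul_sum, Finset.sum_add_distrib, h0, zero_add,
    ← Finset.mul_sum, ← h1]
  rfl

theorem Symb2.s0_ne {s : ℚ → ℤ} {a : ℕ → ℤ} (hs : Symb2 s a) : s 0 ≠ 0 := by
  obtain ⟨k, hk⟩ := hs.odd0
  omega

/-- nonvanishing of the sum of the symbols -/
theorem SS_ne_zero (hsym : S_SYM) (hdiag : S_DIAG) (hind : S_IND) {s : ℚ → ℤ}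
    (hs : Symb2 s (fun q => ap E14 q)) {P : Finset ℕ} (hP : ∀ p ∈ P, Fam p) (hne : P.Nonempty)
    (hodd : Odd (Yd lres xres P)) : SS s (pr P) (pr P) ≠ 0 := by
  rw [SS_eq hsym hdiag hs hP hne]
  obtain ⟨y, hy1, hy2⟩ := hind P hP hne
  have hy : Odd y := hy2.2 hodd
  have hy0 : y ≠ 0 := by
    rintro rfl
    exact absurd hy (by decide)
  refine mul_ne_zero hs.s0_ne (pow_ne_zero 2 ?_)
  rw [hy1]
  positivity

theorem Yd_single (l : ℕ → ℕ → ℤ) (x : ℕ → ℤ) (p : ℕ) : Yd l x {p} = x p := by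
  classical
  haveI : Unique ({p} : Finset ℕ) :=
    { default := ⟨p, Finset.mem_singleton_self p⟩
      uniq := fun a => Subtype.ext (Finset.mem_singleton.1 a.2) }
  unfold Yd
  rw [Matrix.det_unique]
  have h1 : ((default : ({p} : Finset ℕ)) : ℕ) = p := Finset.mem_singleton.1 (default : ({p} : Finset ℕ)).2
  simp only [Matrix.of_apply, if_true, h1]
  have h2 : ({p} : Finset ℕ).erase p = ∅ := by simp
  rw [h2]
  simp

/-- the representation by `2 x² + 7 y²` and the eighth divisibility -/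
theorem X2_iff (hsym : S_SYM) (hdiag : S_DIAG) (hind : S_IND) {p : ℕ} (hp : Fam p) :
    X2 p ↔ ¬ (8 : ℤ) ∣ ap E14 p - 2 := by
  classical
  obtain ⟨s, Op, hOp, hs, hv⟩ := exists_symb2
  have hP : ∀ q ∈ ({p} : Finset ℕ), Fam q := fun q hq => by
    rw [Finset.mem_singleton] at hq; rw [hq]; exact hp
  have h1 := SS_eq hsym hdiag hs hP (Finset.singleton_nonempty p)
  obtain ⟨y, hy1, hy2⟩ := hind {p} hP (Finset.singleton_nonempty p)
  have hpr : pr {p} = p := by simp [pr]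
  rw [Yd_single] at hy2
  rw [Finset.card_singleton] at hy1
  rw [hy1, hpr] at h1
  obtain ⟨k1, k2⟩ := SS_facts p (Fam.split hp).1 (Fam.split hp).2.1 (Fam.split hp).2.2
  have h3 := sum_split hs.toSymb p (Fam.split hp).1 (Fam.split hp).2.1 k1 k2 ∅ (by simp) (by simp)
  simp only [Finset.prod_empty, mul_one, Finset.card_empty, pow_zero, one_mul, jacobiSym.one_right,
    zero_add] at h3
  rw [h1] at h3
  obtain ⟨c, hc⟩ := hs.odd0
  obtain ⟨k, hk⟩ := k2
  have hk' : ap E14 p = 4 * k + 2 := by linarith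
  have h4 : Odd y ↔ Odd k := by
    obtain ⟨j, hj⟩ := h3
    have h5 : (2 * c + 1) * (3 * 2 ^ 1 * y) ^ 2 - 4 * k = 8 * j := by
      rw [hc] at hj
      rw [hk] at hj
      linarith
    have h7 : k = 9 * (2 * c + 1) * y ^ 2 - 2 * j := by linarith
    rw [h7]
    constructor
    · intro h
      exact (((show Odd (9 : ℤ) by decide).mul ⟨c, rfl⟩).mul h.pow).sub_even ⟨j, by ring⟩
    · intro h
      by_contra hne
      rw [Int.not_odd_iff_even] at hne
      obtain ⟨t, rfl⟩ := hne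
      exact (Int.not_even_iff_odd.2 h) ⟨9 * (2 * c + 1) * (2 * t ^ 2) - j, by ring⟩
  have h5 : Odd (xres p) ↔ X2 p := by
    unfold xres
    split_ifs with h
    · exact ⟨fun _ => h, fun _ => by decide⟩
    · exact ⟨fun h' => absurd h' (by decide), fun h' => absurd h' h⟩
  rw [← h5, ← hy2, h4]
  constructor
  · rintro ⟨t, rfl⟩ h8
    rw [hk'] at h8
    omega
  · intro h8
    rcases Int.even_or_odd k with ⟨t, ht⟩ | h
    · exfalso
      apply h8
      rw [hk', ht]
      exact ⟨t, by ring⟩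
    · exact h

theorem NE_eq {p : ℕ} (hp : p.Prime) (h8 : p % 8 = 1) : (NE p : ℤ) = p + 1 - ap E14 p := by
  have h1 := cnt_E14 p hp (by omega) (by omega)
  have h2 : NE p = cnt 5805 (-285714) p + 1 := by
    unfold NE cnt
    have : ∀ q : ZMod p × ZMod p, (q.2 ^ 2 = q.1 ^ 3 + 5805 * q.1 - 285714) ↔
        (q.2 ^ 2 = q.1 ^ 3 + ((5805 : ℤ) : ZMod p) * q.1 + ((-285714 : ℤ) : ZMod p)) := by
      intro q
      push_cast
      rw [sub_eq_add_neg]
    simp only [this]
  rw [h2]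
  push_cast
  linarith

/-- the diagonal entries of the two sides agree -/
theorem xres_eq_xrt (hsym : S_SYM) (hdiag : S_DIAG) (hind : S_IND) (hrte : S_RTE) {p : ℕ}
    (hp : Fam p) : xres p = xrt p := by
  classical
  have h1 := X2_iff hsym hdiag hind hp
  obtain ⟨pp, p8, p7⟩ := Fam.split hp
  have h2 := hrte p pp p8 p7
  have h3 := NE_eq pp p8
  have h4 : (¬ 8 ∣ NE p) ↔ ¬ (8 : ℤ) ∣ ap E14 p - 2 := by
    rw [← Int.natCast_dvd_natCast, h3]
    push_cast
    constructor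
    · intro h h'
      apply h
      omega
    · intro h h'
      apply h
      omega
  unfold xres xrt
  have h5 : X2 p ↔ Y700.Rt p 1 := by rw [h1, h2, h4]
  by_cases h : X2 p
  · rw [if_pos h, if_pos (h5.1 h)]
  · rw [if_neg h, if_neg fun h' => h (h5.2 h')]

/-- the determinants agree -/
theorem Yd_congr (l : ℕ → ℕ → ℤ) {x x' : ℕ → ℤ} {P : Finset ℕ} (h : ∀ p ∈ P, x p = x' p) :
    Yd l x P = Yd l x' P := by
  unfold Yd
  congr 1
  ext i j
  simp only [Matrix.of_apply]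
  rw [h i.1 i.2]

end Pool.Agent.Y687
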